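import Pool.Agent.H.MP_593b6a_co.A

set_option autoImplicit false
open Multiset SimpleGraph

namespace Pool.Agent.Results.MP_593b6a_co.Yes

/-- The `k`-multiset graph: replace one copy of `u` by one copy of a neighbour `v` of `u`. -/
def multisetGraph {V : Type} (G : SimpleGraph V) (k : ℕ) : SimpleGraph (Sym V k) where
  Adj A B := ∃ (u v : V) (C : Multiset V), G.Adj u v ∧ A.1 = u ::ₘ C ∧ B.1 = v ::ₘ C
  symm := ⟨fun _ _ ⟨u, v, C, h, a, b⟩ => ⟨v, u, C, h.symm, b, a⟩⟩
  loopless := ⟨fun _ ⟨_, _, _, h, a, b⟩ => h.ne ((cons_inj_left _).1 (a.symm.trans b))⟩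

open Pool.Agent.H.MP_593b6a_co in
theorem result (k n : ℕ) (hk : 2 ≤ k) (hn : 5 ≤ n) : ∃ G : SimpleGraph (Fin n),
    ¬ G.IsHamiltonian ∧ (multisetGraph G k).IsHamiltonian := by
  obtain ⟨a, rfl⟩ : ∃ a, n = a + 2 := ⟨n - 2, by omega⟩
  obtain ⟨k, rfl⟩ := Nat.exists_eq_add_of_le' hk
  obtain ⟨H, hH⟩ : ∃ H : SimpleGraph (Fin (a + 2)), ∀ u v, H.Adj u v ↔ G u v :=
    ⟨⟨fun u v => G u v, ⟨fun _ _ => G.symm⟩, ⟨fun u h => by have := h.1; omega⟩⟩, fun _ _ => .rfl⟩
  refine ⟨H, fun h => ?_, fun _ => ?_⟩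
  · have side : ∀ (u v : Fin (a + 2)) (r : H.Walk u v), (∀ z ∈ r.support, z.1 ≠ 2) →
        ∀ z ∈ r.support, (z.1 < 2 ↔ u.1 < 2) := fun u v r => by
      induction r with
      | nil => simp
      | @cons u w _ e r ih =>
        intro h z hz
        rcases List.mem_cons.1 hz with rfl | hz
        · rfl
        have h1 := h u (by simp)
        have h2 := h w (by simp)
        have := ih (fun z hz => h z (by simp [hz])) z hz
        obtain ⟨e1, e2⟩ := (hH _ _).1 e
        have : ¬ (u.1 = 1 ∧ w.1 = 3) := fun ⟨a, b⟩ => by simp [a, b] at e2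
        have : ¬ (u.1 = 3 ∧ w.1 = 1) := fun ⟨a, b⟩ => by simp [a, b] at e2
        omega
    obtain ⟨p, hp⟩ := h.exists_isHamiltonianCycle ⟨2, by omega⟩
    have h1 := hp.isHamiltonian_tail
    generalize p.tail = q at h1
    generalize p.snd = s at q h1
    have h2 : q.reverse.IsPath := h1.isPath.reverse
    have h3 : ∀ z, z ∈ q.reverse.support := fun z => by simpa using h1.mem_support z
    generalize q.reverse = r at h2 h3
    cases r with
    | nil => simpa [Fin.ext_iff] using h3 ⟨0, by omega⟩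
    | cons e r =>
      have := side _ _ r fun z hz e => ((Walk.cons_isPath_iff _ _).1 h2).2 (by
        rwa [show z = ⟨2, by omega⟩ from Fin.ext e] at hz)
      have a1 := this ⟨0, by omega⟩ (by simpa [Fin.ext_iff] using h3 ⟨0, by omega⟩)
      have a2 := this ⟨3, by omega⟩ (by simpa [Fin.ext_iff] using h3 ⟨3, by omega⟩)
      simp only at a1 a2; omega
  obtain ⟨ι, hι⟩ : ∃ ι : Sym (Fin (a + 2)) (k + 2) → Multiset ℕ, ∀ A, ι A = A.1.map Fin.val :=
    ⟨_, fun _ => rfl⟩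
  have inj : ∀ A B, ι A = ι B → A = B := fun A B e => Subtype.ext (map_injective Fin.val_injective
    (by rwa [hι, hι] at e))
  have mem : ∀ A, ι A ∈ M (a + 2) (k + 2) := fun A => ⟨by simp [hι, A.2], by simp [hι]⟩
  have sur : ∀ x ∈ M (a + 2) (k + 2), ∃ A, ι A = x := fun x hx =>
    ⟨⟨x.pmap (fun i h => ⟨i, h⟩) hx.2, (card_pmap ..).trans hx.1⟩, 
      (hι _).trans ((map_pmap ..).trans ((pmap_eq_map _ _ _ _).trans (map_id' x)))⟩
  have adj : ∀ A B, R (ι A) (ι B) → (multisetGraph H (k + 2)).Adj A B :=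
    fun A B ⟨u, v, C, h, e, f⟩ => by
      rw [hι] at e f
      obtain ⟨u, a1, rfl, a2⟩ := (map_eq_cons _ _ _ _).2 e
      obtain ⟨v, b1, rfl, b2⟩ := (map_eq_cons _ _ _ _).2 f
      exact ⟨u, v, _, (hH _ _).2 h, (cons_erase a1).symm, by
        rw [map_injective Fin.val_injective (a2.trans b2.symm), cons_erase b1]⟩
  have tr : ∀ T p q, P T p q → T ⊆ M (a + 2) (k + 2) → ∀ A B, ι A = p → ι B = q →
      ∃ w : (multisetGraph H (k + 2)).Walk A B, w.IsPath ∧ ∀ C, C ∈ w.support ↔ ι C ∈ T := by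
    intro T p q h
    induction h with
    | one p =>
      rintro - A B rfl e
      obtain rfl := inj _ _ e
      exact ⟨.nil, by simp, fun C => by simpa using ⟨fun h => h ▸ rfl, inj _ _⟩⟩
    | @cons T p q r e h n ih =>
      rintro s A B rfl rfl
      obtain ⟨D, rfl⟩ := sur q (s (.inr (by cases h <;> simp)))
      obtain ⟨w, h1, h2⟩ := ih (fun _ h => s (.inr h)) D B rfl rfl
      refine ⟨.cons (adj _ _ e) w, h1.cons fun h => n ((h2 _).1 h), fun C => ?_⟩
      simp only [Walk.support_cons, List.mem_cons, h2, Set.mem_insert_iff]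
      exact or_congr_left ⟨fun h => h ▸ rfl, inj _ _⟩
  obtain ⟨-, -, b, hb, h⟩ := all a (by omega)
  have m : replicate (k + 2) (a + 1) ∈ M (a + 2) (k + 2) :=
    ⟨by simp, fun i hi => by simp [eq_of_mem_replicate hi]⟩
  have h := (h k).snoc ⟨a, a + 1, _, ⟨by omega, .inl (by omega)⟩, rfl, rfl⟩ m
  obtain ⟨A, hA⟩ := sur _ m
  obtain ⟨B, hB⟩ := sur (b ::ₘ replicate (k + 1) (a + 1)) (by
    generalize M (a + 2) (k + 2) = T, b ::ₘ replicate (k + 1) (a + 1) = p at h
    cases h <;> simp)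
  obtain ⟨w, h1, h2⟩ := tr _ _ _ h subset_rfl B A hB hA
  have h3 := h1.isHamiltonian_of_mem fun C => (h2 C).2 (mem C)
  have e := adj A B ⟨a + 1, b, replicate (k + 1) (a + 1), hb.symm, hA, hB⟩
  refine ⟨A, .cons e w, ⟨Walk.isCycle_iff_isPath_tail_and_le_length.2 ⟨by simpa using h1, ?_⟩,
    fun C => by simpa using h3 C⟩⟩
  have : 3 ≤ Fintype.card (Sym (Fin (a + 2)) (k + 2)) := le_trans (by simp; omega)
    (Fintype.card_le_of_injective (Sym.replicate (k + 2)) (Sym.replicate_right_injective (by simp)))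
  rw [Walk.length_cons, h3.length_eq]; omega

end Pool.Agent.Results.MP_593b6a_co.Yes
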